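import Pool.Agent.T9h12.C6.H2.All
import Pool.Agent.T9h12.C6.Trans

/-!
# Edges not contained in a given set

Let `A` be a set of at least `0.461 n` vertices of a `K_4^3`-free 3-graph `H` on `n` vertices. Then at
most `(0.5555/6) n³` edges of `H` are not contained in `A`. In particular the bound `5/9` conjectured
by Turán holds for all `K_4^3`-free 3-graphs with an independent set of at least `0.461 n` vertices,
and a `K_4^3`-free 3-graph whose density exceeds `5/9` has at least a fixed positive proportion of
edges inside every such set. (An earlier result here needed independent sets of `0.57 n` vertices.)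

Proof. Deleting the edges inside `A` we may assume that `A` is independent. Then the flag algebra
method of order six is used for 3-graphs with a two-colouring of the vertices in which the first
class is independent and has relative size `0.461`: positive semidefinite forms for all types on four
and on two coloured vertices and for the empty type, and the size of the first class as an equation
multiplied by arbitrary flags on five coloured vertices. The resulting inequality is checked by the
kernel for the `964` `K_4^3`-free 3-graphs on six vertices with all their admissible colourings. A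
larger set is reduced to one with the exact relative size in a blow-up.
-/

set_option autoImplicit false
open Finset

namespace Pool.Agent.Results.MP_f1799f_co.EdgesLeavingASet

/-- The 3-graph `H` has no four vertices spanning all four triples. -/
def K43Free {n : ℕ} (H : Finset (Finset (Fin n))) : Prop :=
  ∀ S : Finset (Fin n), S.card = 4 → ∃ e ⊆ S, e.card = 3 ∧ e ∉ H

open Pool.Agent.H449R2.Fl Pool.Agent.T9h12.C6 in
theorem main (n : ℕ) (H : Finset (Finset (Fin n))) (h3 : ∀ e ∈ H, e.card = 3) (hK : K43Free H)
    (A : Finset (Fin n)) (hA : 461 * n ≤ 1000 * A.card) (hI : ∀ e ∈ H, ¬ e ⊆ A) :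
    60000 * H.card ≤ 5555 * n ^ 3 := by
  rcases Nat.eq_zero_or_pos A.card with h0 | h0
  · have hn : n = 0 := by omega
    subst hn
    have hH : H = ∅ := by
      rw [eq_empty_iff_forall_notMem]
      intro s hs
      have h1 := h3 s hs
      have h2 := card_le_univ s
      rw [Fintype.card_fin] at h2
      omega
    simp [hH]
  · have hpq : 461 * Fintype.card (Fin n) ≤ 1000 * A.card := by rwa [Fintype.card_fin]
    have hin : ∀ x y z : Fin n × Fin (1000 * A.card),
        bc A (461 * Fintype.card (Fin n)) (1000 * A.card) x = 0 →
        bc A (461 * Fintype.card (Fin n)) (1000 * A.card) y = 0 →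
        bc A (461 * Fintype.card (Fin n)) (1000 * A.card) z = 0 →
        be (ind H) (1000 * A.card) x y z = 0 := by
      intro x y z hx hy hz
      have hm : ∀ w : Fin n × Fin (1000 * A.card),
          bc A (461 * Fintype.card (Fin n)) (1000 * A.card) w = 0 → w.1 ∈ A := by
        intro w hw
        by_contra hn
        unfold bc at hw
        rw [if_neg (fun h => hn h.1)] at hw
        omega
      unfold be ind
      rw [if_neg]
      intro hmem
      refine hI _ hmem ?_
      intro w hw
      simp only [mem_insert, mem_singleton] at hw
      rcases hw with rfl | rfl | rfl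
      exacts [hm x hx, hm y hy, hm z hz]
    have hb := blow_bound (ind_pat h3) (K4free_sg h3 hK) A 461 1000 hpq (by omega) idOk
      (fun u => rfl) H2.certOk _ inA H2.chk_all (fun v m h => inA_false hin v m h) (by
        refine sum_nonneg fun a _ => sum_nonneg fun b _ => sum_nonneg fun x _ => ?_
        have h0 : ∀ s < 8, H2.tau s = 0 := by decide
        rw [h0 _ (st_lt (be_pat (ind_pat h3) _) (bc_le _ _ _) _ _ _)])
    rw [Fintype.card_fin] at hb
    have hE : ∑ a, ∑ b, ∑ x, (ind H a b x : ℤ) = 6 * (H.card : ℤ) := by
      exact_mod_cast sum_ind h3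
    rw [hE] at hb
    have hn3 : (0 : ℤ) ≤ (n : ℤ) ^ 3 := by positivity
    have hz : (60000 : ℤ) * H.card ≤ 5555 * (n : ℤ) ^ 3 := by
      norm_num at hb
      linarith
    exact_mod_cast hz

/-- **Edges leaving a set.** Let `H` be a `K_4^3`-free 3-graph on `n` vertices and `A` a set of at
least `0.461 n` vertices. Then at most `(0.5555/6) n³` edges of `H` are not contained in `A`, and for
`n ≥ 30000` at most `(5/9) C(n,3)`. -/
theorem result (n : ℕ) (H : Finset (Finset (Fin n))) (h3 : ∀ e ∈ H, e.card = 3) (hK : K43Free H)
    (A : Finset (Fin n)) (hA : 0.461 * (n : ℝ) ≤ A.card) :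
    ((H.filter fun e => ¬ e ⊆ A).card : ℝ) ≤ 0.5555 / 6 * (n : ℝ) ^ 3 ∧
      (30000 ≤ n → ((H.filter fun e => ¬ e ⊆ A).card : ℝ) ≤ 5 / 9 * (n.choose 3 : ℝ)) := by
  have hA' : 461 * n ≤ 1000 * A.card := by
    have : (461 : ℝ) * n ≤ 1000 * A.card := by linarith
    exact_mod_cast this
  have h := main n (H.filter fun e => ¬ e ⊆ A) (fun e he => h3 e (mem_filter.1 he).1)
    (fun S hS => by
      obtain ⟨e, he, he3, heH⟩ := hK S hS
      exact ⟨e, he, he3, fun h => heH (mem_filter.1 h).1⟩) A hA'
    (fun e he => (mem_filter.1 he).2)
  have hr : (60000 : ℝ) * (H.filter fun e => ¬ e ⊆ A).card ≤ 5555 * (n : ℝ) ^ 3 := by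
    exact_mod_cast h
  refine ⟨by linarith, fun hn => ?_⟩
  exact Pool.Agent.T9h12.C6.to_choose n 30000 _ 0.5555 (by norm_num) hn (by norm_num)
    (by norm_num) (by linarith)

end Pool.Agent.Results.MP_f1799f_co.EdgesLeavingASet
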