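import Pool.Agent.T9h12.C6.H1.All
import Pool.Agent.T9h12.C6.Trans

/-!
# Dense sets of small average codegree

In all known extremal `K_4^3`-free 3-graphs (Turán's construction and the constructions of Kostochka)
there are sets of `n/3` vertices such that all pairs in the set have codegree `n/3`. It is proved
that a slightly larger set, of at least `3n/8` vertices, in which the average codegree of the pairs
is at most `n/3`, cannot exist in a `K_4^3`-free 3-graph with at least as many edges: the density is
then at most `0.5554 < 5/9`.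

Proof. Flag algebra method of order six for 3-graphs with a two-colouring of the vertices (the given
set and its complement). The positive semidefinite forms are those for all types on four coloured
vertices, on two coloured vertices, and for the empty type. The size of the first class is used as an
equation multiplied by arbitrary flags on five coloured vertices, and the condition on the codegrees
is multiplied by nonnegative combinations of coloured triples. The resulting inequality is checked by
the kernel for the `964` `K_4^3`-free 3-graphs on six vertices with all `64` colourings. A set with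
more than `3n/8` vertices is reduced to one with the exact relative size in a blow-up.
-/

set_option autoImplicit false
open Finset

namespace Pool.Agent.Results.MP_f1799f_co.SparseSets

/-- The 3-graph `H` has no four vertices spanning all four triples. -/
def K43Free {n : ℕ} (H : Finset (Finset (Fin n))) : Prop :=
  ∀ S : Finset (Fin n), S.card = 4 → ∃ e ⊆ S, e.card = 3 ∧ e ∉ H

/-- The codegree of a pair `p` of vertices: the number of edges containing `p`. -/
def codeg {n : ℕ} (H : Finset (Finset (Fin n))) (p : Finset (Fin n)) : ℕ :=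
  (H.filter fun s => p ⊆ s).card

open Pool.Agent.H449R2.Fl Pool.Agent.T9h12.C6 in
theorem main (n : ℕ) (H : Finset (Finset (Fin n))) (h3 : ∀ e ∈ H, e.card = 3) (hK : K43Free H)
    (A : Finset (Fin n)) (hA : 3 * n ≤ 8 * A.card)
    (hc : 3 * ∑ p ∈ A.powersetCard 2, codeg H p ≤ n * A.card.choose 2) :
    60000 * H.card ≤ 5554 * n ^ 3 := by
  rcases Nat.eq_zero_or_pos A.card with h0 | h0
  · have hn : n = 0 := by omega
    subst hn
    have hH : H = ∅ := by
      rw [eq_empty_iff_forall_notMem]
      intro s hs
      have h1 := h3 s hs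
      have h2 := card_le_univ s
      rw [Fintype.card_fin] at h2
      omega
    simp [hH]
  · have hcc : ∑ a ∈ A, ∑ b ∈ A, ∑ x, ind H a b x =
        2 * ∑ p ∈ A.powersetCard 2, codeg H p := sum_codeg h3 A
    have hch : A.card.choose 2 * 2 ≤ A.card ^ 2 := by
      rw [Nat.choose_two_right]
      have := Nat.div_mul_le_self (A.card * (A.card - 1)) 2
      have h4 : A.card * (A.card - 1) ≤ A.card * A.card := Nat.mul_le_mul_left _ (Nat.sub_le _ _)
      rw [sq]
      omega
    have hcod : 3 * ∑ a ∈ A, ∑ b ∈ A, ∑ x, ind H a b x ≤ n * A.card ^ 2 := by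
      rw [hcc]
      have h5 : n * (A.card.choose 2 * 2) ≤ n * A.card ^ 2 := Nat.mul_le_mul_left _ hch
      nlinarith
    have hcodz : 3 * ∑ a ∈ A, ∑ b ∈ A, ∑ x, (ind H a b x : ℤ) ≤ n * (A.card : ℤ) ^ 2 := by
      exact_mod_cast hcod
    have hpq : 3 * Fintype.card (Fin n) ≤ 8 * A.card := by rwa [Fintype.card_fin]
    have hb := blow_bound (ind_pat h3) (K4free_sg h3 hK) A 3 8 hpq (by omega) idOk
      (fun u => rfl) H1.certOk _ nobad H1.chk_all (fun _ _ _ => rfl) (by
        rw [slack_sum (be_pat (ind_pat h3) _) _ (bc_le _ _ _) 1 3 H1.tau rfl rfl rfl rfl rfl rfl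
          rfl rfl, slack_blow _ _ _ _ hpq, Fintype.card_fin]
        have h6 : (0 : ℤ) ≤ 1 * (n : ℤ) * (A.card : ℤ) ^ 2 -
            3 * ∑ a ∈ A, ∑ b ∈ A, ∑ x, (ind H a b x : ℤ) := by linarith
        positivity)
    rw [Fintype.card_fin] at hb
    have hE : ∑ a, ∑ b, ∑ x, (ind H a b x : ℤ) = 6 * (H.card : ℤ) := by
      exact_mod_cast sum_ind h3
    rw [hE] at hb
    have hn3 : (0 : ℤ) ≤ (n : ℤ) ^ 3 := by positivity
    have hz : (60000 : ℤ) * H.card ≤ 5554 * (n : ℤ) ^ 3 := by
      norm_num at hb
      linarith
    exact_mod_cast hz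

/-- **Sets of small average codegree.** Let `H` be a `K_4^3`-free 3-graph on `n` vertices with a set
`A` of at least `3n/8` vertices such that the average codegree of the pairs of vertices of `A` is at
most `n/3`. Then `H` has at most `(0.5554/6) n³` edges, and for `n ≥ 11000` at most `(5/9) C(n,3)`. -/
theorem result (n : ℕ) (H : Finset (Finset (Fin n))) (h3 : ∀ e ∈ H, e.card = 3) (hK : K43Free H)
    (A : Finset (Fin n)) (hA : 3 * n ≤ 8 * A.card)
    (hc : 3 * ∑ p ∈ A.powersetCard 2, codeg H p ≤ n * A.card.choose 2) :
    (H.card : ℝ) ≤ 0.5554 / 6 * (n : ℝ) ^ 3 ∧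
      (11000 ≤ n → (H.card : ℝ) ≤ 5 / 9 * (n.choose 3 : ℝ)) := by
  have h := main n H h3 hK A hA hc
  have hr : (60000 : ℝ) * H.card ≤ 5554 * (n : ℝ) ^ 3 := by exact_mod_cast h
  refine ⟨by linarith, fun hn => ?_⟩
  exact Pool.Agent.T9h12.C6.to_choose n 11000 H.card 0.5554 (by norm_num) hn (by norm_num)
    (by norm_num) (by linarith)

end Pool.Agent.Results.MP_f1799f_co.SparseSets
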