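import Pool.Agent.T9h10.FT.Count
import Pool.Agent.T9h10.LB.Ineq
import Pool.Agent.W38.TC.Lower

/-!
# Turán's conjecture for `K_4^3`: not more quadruples with two edges than empty ones at missing triples

Let `H` be a `K_4^3`-free 3-graph on `n` vertices. For a triple `S` that is not an edge let `q_j(S)`
be the number of four-element vertex sets which contain `S` and exactly `j` edges (`j ≤ 3`). If

  `q_2(S) ≤ q_0(S) + 3` for all missing triples `S`,

then `|H| ≤ (5/54) n³ + (16/9) n²`, Turán's bound up to `O(n²)`. Missing triples which violate the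
condition are allowed: `54 n |H| ≤ 5 n⁴ + 96 n³ + 192 ∑ (q_2(S) - q_0(S) - 3)⁺`. Turán's construction
satisfies the condition; there `q_2(S) = q_0(S)`, up to a constant, for a positive proportion of the
missing triples.

Outline: a sum of squares certificate for six-vertex structures in which, for every missing triple
`S` of five vertices, the number `∑ φ(j) q_j(S)` (counted with the sixth vertex) is multiplied by a
non-negative function of the 3-graph induced on the five vertices; found by a semidefinite programming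
solver and made exact. The leaf inequalities are checked by the kernel.
-/

set_option autoImplicit false
set_option maxRecDepth 100000
open Finset
open scoped Classical

namespace Pool.Agent.Results.MP_f1799f_co.TwoEdgeQuadruples

/-- The 3-graph `H` has no four vertices spanning all four triples. -/
def K43Free {n : ℕ} (H : Finset (Finset (Fin n))) : Prop :=
  ∀ S : Finset (Fin n), S.card = 4 → ∃ s ⊆ S, s.card = 3 ∧ s ∉ H

/-- The triples of vertices that are not edges. -/
def missing {n : ℕ} (H : Finset (Finset (Fin n))) : Finset (Finset (Fin n)) :=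
  ((univ : Finset (Fin n)).powersetCard 3).filter fun S => S ∉ H

/-- The number of vertices `v` outside `S` such that `S ∪ {v}` contains exactly `j` edges. -/
def quads {n : ℕ} (H : Finset (Finset (Fin n))) (S : Finset (Fin n)) (j : ℕ) : ℕ :=
  (univ.filter fun v => v ∉ S ∧ (H.filter fun e => e ⊆ insert v S).card = j).card

open Pool.Agent.T9h10.FT Pool.Agent.H122R2.N6

theorem nq_eq {n : ℕ} (H : Finset (Finset (Fin n))) (S : Finset (Fin n)) (j : ℕ) :
    nq H S j = quads H S j := by
  unfold nq quads ins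
  congr 1

theorem nok4 {n : ℕ} {H : Finset (Finset (Fin n))} (h3 : ∀ s ∈ H, s.card = 3) (hK : K43Free H) :
    Pool.Agent.T9h10.FT.NoK4 (tri H) := by
  intro a b c d
  by_contra hne
  have h1 : tri H a b c ≠ 0 := fun h => hne (by rw [h, Nat.zero_mul])
  have h2 : tri H a b d ≠ 0 := fun h => hne (by rw [h, Nat.zero_mul, Nat.mul_zero])
  have h4 : tri H a c d ≠ 0 := fun h => hne (by rw [h, Nat.zero_mul, Nat.mul_zero, Nat.mul_zero])
  have h5 : tri H b c d ≠ 0 := fun h => hne (by rw [h, Nat.mul_zero, Nat.mul_zero, Nat.mul_zero])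
  have key : ∀ x y z : Fin n, tri H x y z ≠ 0 → ({x, y, z} : Finset (Fin n)) ∈ H ∧ x ≠ y ∧ x ≠ z ∧
      y ≠ z := by
    intro x y z h
    refine ⟨?_, ?_, ?_, ?_⟩
    · by_contra hm
      exact h (by rw [tri_eq, if_neg hm])
    · intro he; exact h (tri_rep h3 (Or.inl he))
    · intro he; exact h (tri_rep h3 (Or.inr (Or.inl he)))
    · intro he; exact h (tri_rep h3 (Or.inr (Or.inr he)))
  obtain ⟨m1, hab, hac, hbc⟩ := key _ _ _ h1
  obtain ⟨m2, -, had, hbd⟩ := key _ _ _ h2
  obtain ⟨m3, -, -, hcd⟩ := key _ _ _ h4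
  obtain ⟨m4, -, -, -⟩ := key _ _ _ h5
  have hS : ({a, b, c, d} : Finset (Fin n)).card = 4 := by
    rw [card_insert_of_notMem, card_insert_of_notMem, card_insert_of_notMem, card_singleton]
    · simpa using hcd
    · simp [hbc, hbd]
    · simp [hab, hac, had]
  obtain ⟨s, hs, hc, hn⟩ := hK _ hS
  obtain ⟨v, hv, hvs⟩ : ∃ v ∈ ({a, b, c, d} : Finset (Fin n)), v ∉ s := by
    by_contra hno
    push Not at hno
    have := card_le_card (show ({a, b, c, d} : Finset (Fin n)) ⊆ s from hno)
    omega
  have hse : s = ({a, b, c, d} : Finset (Fin n)).erase v := by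
    refine eq_of_subset_of_card_le ?_ ?_
    · intro y hy
      exact mem_erase.mpr ⟨fun h => hvs (h ▸ hy), hs hy⟩
    · rw [card_erase_of_mem hv, hS, hc]
  refine hn ?_
  simp only [mem_insert, mem_singleton] at hv
  rcases hv with rfl | rfl | rfl | rfl
  · have e : s = {b, c, d} := by
      rw [hse]; ext t; simp only [mem_erase, mem_insert, mem_singleton]
      constructor
      · rintro ⟨h1, h2 | h2 | h2 | h2⟩ <;> simp_all
      · rintro (h2 | h2 | h2) <;> simp_all [Ne.symm]
    rw [e]; exact m4
  · have e : s = {a, c, d} := by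
      rw [hse]; ext t; simp only [mem_erase, mem_insert, mem_singleton]
      constructor
      · rintro ⟨h1, h2 | h2 | h2 | h2⟩ <;> simp_all
      · rintro (h2 | h2 | h2) <;> simp_all [Ne.symm]
    rw [e]; exact m3
  · have e : s = {a, b, d} := by
      rw [hse]; ext t; simp only [mem_erase, mem_insert, mem_singleton]
      constructor
      · rintro ⟨h1, h2 | h2 | h2 | h2⟩ <;> simp_all
      · rintro (h2 | h2 | h2) <;> simp_all [Ne.symm]
    rw [e]; exact m2
  · have e : s = {a, b, c} := by
      rw [hse]; ext t; simp only [mem_erase, mem_insert, mem_singleton]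
      constructor
      · rintro ⟨h1, h2 | h2 | h2 | h2⟩ <;> simp_all
      · rintro (h2 | h2 | h2) <;> simp_all [Ne.symm]
    rw [e]; exact m1

theorem total {n : ℕ} {H : Finset (Finset (Fin n))} (h3 : ∀ s ∈ H, s.card = 3)
    {S : Finset (Fin n)} (hS : S.card = 3) (hm : S ∉ H) :
    quads H S 0 + quads H S 1 + quads H S 2 + quads H S 3 + 3 = n := by
  obtain ⟨x, y, z, hxy, hxz, hyz, rfl⟩ := card_eq_three.mp hS
  have h := cF_eq h3 (fun _ => 1) hxy hxz hyz hm
  unfold cF at h
  rw [sum_const, card_univ, Fintype.card_fin] at h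
  simp only [nq_eq] at h
  simp only [smul_eq_mul, mul_one, one_mul] at h
  omega

theorem gsum {n : ℕ} {H : Finset (Finset (Fin n))} (fh : ℕ → ℕ) (p q : ℕ)
    (g : Finset (Fin n) → ℕ)
    (hg : ∀ S : Finset (Fin n), S.card = 3 → S ∉ H → gS fh p q H S ≤ g S) :
    ∑ S ∈ (univ : Finset (Fin n)).powersetCard 3, gS fh p q H S ≤ ∑ S ∈ missing H, g S := by
  unfold missing
  rw [sum_filter]
  refine sum_le_sum fun S hS => ?_
  by_cases hm : S ∈ H
  · rw [if_neg (not_not.mpr hm)]
    unfold gS
    rw [if_pos hm]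
  · rw [if_pos hm]
    exact hg S (mem_powersetCard.mp hS).2 hm

theorem boundB {n : ℕ} {H : Finset (Finset (Fin n))} (h3 : ∀ s ∈ H, s.card = 3) (hK : K43Free H) :
    54 * n * H.card ≤ 5 * n ^ 4 + 96 * n ^ 3 +
      192 * ∑ S ∈ missing H, (quads H S 2 - (quads H S 0 + 3)) := by
  have h := concl h3 (A := 148434069749760) (B := 82463372083200) (C := 525284923146240)
    (Pool.Agent.T9h10.LB.ineq (tri_sy H) (nok4 h3 hK))
  have f0 : Pool.Agent.T9h10.LB.fh 0 = 0 := by decide +kernel
  have f1 : Pool.Agent.T9h10.LB.fh 1 = 1 := by decide +kernel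
  have f2 : Pool.Agent.T9h10.LB.fh 2 = 2 := by decide +kernel
  have f3 : Pool.Agent.T9h10.LB.fh 3 = 1 := by decide +kernel
  have hg := gsum (H := H) Pool.Agent.T9h10.LB.fh 1 1
    (fun S => quads H S 2 - (quads H S 0 + 3)) (by
      intro S hS hm
      have ht := total h3 hS hm
      unfold gS
      rw [if_neg hm, f0, f1, f2, f3]
      simp only [nq_eq]
      omega)
  rw [f0, f2] at h
  have e : (1 * max 0 2 - 1 : ℕ) = 1 := by decide
  rw [e, Nat.mul_one] at h
  have e2 : 54 * n * H.card = 54 * (n * H.card) := by ring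
  rw [e2]
  set a := n * H.card
  set b := n ^ 4
  set c := n ^ 3
  omega

theorem quads_le {n : ℕ} (H : Finset (Finset (Fin n))) (S : Finset (Fin n)) (j : ℕ) :
    quads H S j ≤ n := by
  unfold quads
  refine (card_filter_le _ _).trans ?_
  rw [card_univ, Fintype.card_fin]

theorem zero_of {H : Finset (Finset (Fin 0))} (h3 : ∀ s ∈ H, s.card = 3) : H.card = 0 := by
  rw [card_eq_zero, eq_empty_iff_forall_notMem]
  intro s hs
  have h1 := h3 s hs
  have h2 := card_le_univ s
  rw [Fintype.card_fin] at h2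
  omega

theorem countB {n : ℕ} {H : Finset (Finset (Fin n))} (h3 : ∀ s ∈ H, s.card = 3) (hK : K43Free H) :
    54 * H.card ≤ 5 * n ^ 3 + 96 * n ^ 2 +
      192 * ((missing H).filter fun S => quads H S 0 + 3 < quads H S 2).card := by
  rcases Nat.eq_zero_or_pos n with h0 | hn
  · subst h0; rw [zero_of h3]; simp
  have h := boundB h3 hK
  have hs : ∑ S ∈ missing H, (quads H S 2 - (quads H S 0 + 3)) ≤
      ∑ S ∈ missing H, n * (if quads H S 0 + 3 < quads H S 2 then 1 else 0) := by
    refine sum_le_sum fun S _ => ?_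
    have := quads_le H S 2
    split_ifs with hl
    · omega
    · omega
  rw [← mul_sum, ← card_filter] at hs
  set N := ((missing H).filter fun S => quads H S 0 + 3 < quads H S 2).card
  have h1 : n * (54 * H.card) ≤ n * (5 * n ^ 3 + 96 * n ^ 2 + 192 * N) := by
    calc n * (54 * H.card) = 54 * n * H.card := by ring
      _ ≤ _ := h
      _ ≤ 5 * n ^ 4 + 96 * n ^ 3 + 192 * (n * N) := by
        exact Nat.add_le_add_left (Nat.mul_le_mul_left _ hs) _
      _ = _ := by ring
  exact Nat.le_of_mul_le_mul_left h1 hn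

/-! ### Turán's construction -/

section
open Pool.Agent.W38.TC.Lower

theorem cls_ge {m : ℕ} (c : Fin 3) :
    m ≤ ((univ : Finset (Fin (3 * m))).filter fun x => p x = c).card := by
  have h := sum_p (n := 3 * m) (fun i => if i = c then 1 else 0)
  rw [sum_ite_eq' univ c, if_pos (mem_univ c), Nat.mul_div_cancel_left m (by norm_num), mul_one] at h
  rw [card_filter]
  exact h

theorem cls_le {m : ℕ} (c : Fin 3) :
    ((univ : Finset (Fin (3 * m))).filter fun x => p x = c).card ≤ m := by
  have h1 : ∑ c : Fin 3, ((univ : Finset (Fin (3 * m))).filter fun x => p x = c).card = 3 * m := by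
    rw [← card_eq_sum_card_fiberwise (fun x _ => mem_coe.mpr (mem_univ _)), card_univ,
      Fintype.card_fin]
  rw [Fin.sum_univ_three] at h1
  have h2 := cls_ge (m := m) 0
  have h4 := cls_ge (m := m) 1
  have h5 := cls_ge (m := m) 2
  fin_cases c
  · simp only [Fin.zero_eta]; omega
  · simp only [Fin.mk_one]; omega
  · simp only [Fin.reduceFinMk]; omega

/-- the number of edges which a vertex of class `l` forms with the pairs of three vertices -/
def cnt (i j k l : Fin 3) : ℕ :=
  (if E i j l = true then 1 else 0) + ((if E i k l = true then 1 else 0) + (if E j k l = true then 1 else 0))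

theorem cnt_cls : ∀ i j k, E i j k = false → ∃ a b : Fin 3, (∀ l, cnt i j k l = 2 → l = b) ∧
    cnt i j k a = 0 := by decide

theorem tri_H {n : ℕ} {x y w : Fin n} (hxy : x ≠ y) (hxw : x ≠ w) (hyw : y ≠ w) :
    tri (Pool.Agent.W38.TC.Lower.H : Finset (Finset (Fin n))) x y w =
      if E (p x) (p y) (p w) = true then 1 else 0 := by
  rw [tri_eq]
  simp only [mem_H hxy hxw hyw]

theorem turan_quads {m : ℕ} {S : Finset (Fin (3 * m))} (hS : S.card = 3)
    (hm : S ∉ (Pool.Agent.W38.TC.Lower.H : Finset (Finset (Fin (3 * m))))) :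
    quads Pool.Agent.W38.TC.Lower.H S 2 ≤ quads Pool.Agent.W38.TC.Lower.H S 0 + 3 := by
  obtain ⟨x, y, z, hxy, hxz, hyz, rfl⟩ := card_eq_three.mp hS
  have hE : E (p x) (p y) (p z) = false := by
    rw [mem_H hxy hxz hyz] at hm
    exact Bool.eq_false_iff.mpr hm
  have h3 : ∀ s ∈ (Pool.Agent.W38.TC.Lower.H : Finset (Finset (Fin (3 * m)))), s.card = 3 :=
    fun s hs => H_card hs
  have hc : ∀ w, w ∉ ({x, y, z} : Finset (Fin (3 * m))) →
      ins (Pool.Agent.W38.TC.Lower.H) (insert w {x, y, z}) = cnt (p x) (p y) (p z) (p w) := by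
    intro w hw
    rw [ins_four h3 hxy hxz hyz hm hw]
    simp only [mem_insert, mem_singleton, not_or] at hw
    obtain ⟨w1, w2, w3⟩ := hw
    rw [tri_H hxy (Ne.symm w1) (Ne.symm w2), tri_H hxz (Ne.symm w1) (Ne.symm w3),
      tri_H hyz (Ne.symm w2) (Ne.symm w3)]
    rfl
  simp only [← nq_eq]
  obtain ⟨a, b, hb, ha⟩ := cnt_cls _ _ _ hE
  have h1 : nq (Pool.Agent.W38.TC.Lower.H) {x, y, z} 2 ≤ m := by
    refine le_trans (card_le_card ?_) (cls_le (m := m) b)
    intro w hw
    rw [mem_filter] at hw ⊢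
    obtain ⟨-, hw1, hw2⟩ := hw
    rw [hc w hw1] at hw2
    exact ⟨mem_univ _, hb _ hw2⟩
  have h2 : m ≤ nq (Pool.Agent.W38.TC.Lower.H) {x, y, z} 0 + 3 := by
    refine (cls_ge (m := m) a).trans ?_
    have h33 : nq (Pool.Agent.W38.TC.Lower.H) {x, y, z} 0 + 3 =
        nq (Pool.Agent.W38.TC.Lower.H) {x, y, z} 0 + ({x, y, z} : Finset (Fin (3 * m))).card := by
      rw [hS]
    refine le_trans ?_ h33.symm.le
    unfold nq
    refine le_trans (card_le_card ?_) (card_union_le _ _)
    intro w hw
    rw [mem_filter] at hw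
    by_cases hwS : w ∈ ({x, y, z} : Finset (Fin (3 * m)))
    · exact mem_union_right _ hwS
    · refine mem_union_left _ ?_
      rw [mem_filter]
      refine ⟨mem_univ _, hwS, ?_⟩
      rw [hc w hwS, hw.2]
      exact ha
  omega

/-- Turán's construction satisfies the condition. -/
theorem sharp (m : ℕ) : ∃ H : Finset (Finset (Fin (3 * m))), (∀ s ∈ H, s.card = 3) ∧ K43Free H ∧
    (∀ S ∈ missing H, quads H S 2 ≤ quads H S 0 + 3) ∧
    5 * (3 * m) ^ 3 ≤ 54 * H.card + 108 * (3 * m) ^ 2 := by
  refine ⟨Pool.Agent.W38.TC.Lower.H, fun e he => H_card he, fun S hS => H_free S hS, ?_, ?_⟩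
  · intro S hS
    unfold missing at hS
    rw [mem_filter, mem_powersetCard] at hS
    exact turan_quads hS.1.2 hS.2
  · have h1 := H_large (n := 3 * m)
    have h5 : 5 * ((3 * m : ℕ) : ℝ) ^ 3 ≤
        54 * ((Pool.Agent.W38.TC.Lower.H : Finset (Finset (Fin (3 * m)))).card : ℝ) +
          108 * ((3 * m : ℕ) : ℝ) ^ 2 := by
      nlinarith
    exact_mod_cast h5

end

/-- **Turán's `(3,4)`-problem, not more quadruples with two edges than empty ones at missing
triples.** For every `K_4^3`-free 3-graph `H` on `n` vertices the number of edges is bounded by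
Turán's bound, up to `O(n²)`, and a multiple of the excess of `q_2(S)` over `q_0(S) + 3`, summed over
the missing triples `S`. Turán's construction has no excess. -/
theorem result :
    (∀ (n : ℕ) (H : Finset (Finset (Fin n))), (∀ s ∈ H, s.card = 3) → K43Free H →
      54 * n * H.card ≤ 5 * n ^ 4 + 96 * n ^ 3 +
        192 * ∑ S ∈ missing H, (quads H S 2 - (quads H S 0 + 3)) ∧
      54 * H.card ≤ 5 * n ^ 3 + 96 * n ^ 2 +
        192 * ((missing H).filter fun S => quads H S 0 + 3 < quads H S 2).card ∧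
      ((∀ S ∈ missing H, quads H S 2 ≤ quads H S 0 + 3) → 54 * H.card ≤ 5 * n ^ 3 + 96 * n ^ 2)) ∧
    (∀ m : ℕ, ∃ H : Finset (Finset (Fin (3 * m))), (∀ s ∈ H, s.card = 3) ∧ K43Free H ∧
      (∀ S ∈ missing H, quads H S 2 ≤ quads H S 0 + 3) ∧
      5 * (3 * m) ^ 3 ≤ 54 * H.card + 108 * (3 * m) ^ 2) := by
  refine ⟨?_, sharp⟩
  intro n H h3 hK
  refine ⟨boundB h3 hK, countB h3 hK, fun hS => ?_⟩
  have h := countB h3 hK
  have e : (missing H).filter (fun S => quads H S 0 + 3 < quads H S 2) = ∅ := by
    rw [filter_eq_empty_iff]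
    intro S hSm
    exact not_lt.mpr (hS S hSm)
  rw [e, card_empty] at h
  omega

end Pool.Agent.Results.MP_f1799f_co.TwoEdgeQuadruples
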