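import Pool.Agent.T9h12.M5.H3.All
import Pool.Agent.T9h12.M5.One
import Pool.Agent.T9h12.C6.Trans
import Pool.Agent.T9h12.Moved.CompletePairs

/-!
# Edges with two vertices in one set and one vertex in another set

In Turán's `K_4^3`-free 3-graph there are disjoint sets `A` and `C` of `n/3` vertices each such that
no edge has two vertices in `A` and one vertex in `C`. It is proved that for arbitrary disjoint sets
`A` and `C` of at least `0.347 n` vertices of an arbitrary `K_4^3`-free 3-graph, the number of the
edges which do not have exactly two vertices in `A` and one in `C` is at most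
`(0.55545/6) n³ < (5/9) C(n,3)`; and that sets of `0.341 n` vertices suffice if all triples with one
vertex in `A` and two vertices in `C` are edges (as in Turán's 3-graph).

Proof. Flag algebra method of order five for 3-graphs with a three-colouring of the vertices (`A`,
`C` and the rest) without edges with two vertices in `A` and one in `C`. The positive semidefinite
forms are those for all types on three coloured vertices and on one coloured vertex; the sizes
of the two sets are used as equations multiplied by arbitrary functions of four coloured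
vertices. The resulting inequality is checked by the kernel for all coloured 3-graphs on five
labelled vertices. Larger sets are reduced to sets with the exact relative sizes in a blow-up.
-/

set_option autoImplicit false
open Finset

namespace Pool.Agent.Results.MP_f1799f_co.TwoSets

/-- The 3-graph `H` has no four vertices spanning all four triples. -/
def K43Free {n : ℕ} (H : Finset (Finset (Fin n))) : Prop :=
  ∀ S : Finset (Fin n), S.card = 4 → ∃ e ⊆ S, e.card = 3 ∧ e ∉ H

/-- `(A, C)` is a complete pair: the two sets are disjoint, and all triples with one vertex in `A`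
and two vertices in `C` are edges of `H`. -/
def CompletePair {n : ℕ} (H : Finset (Finset (Fin n))) (A C : Finset (Fin n)) : Prop :=
  Disjoint A C ∧ ∀ a ∈ A, ∀ u ∈ C, ∀ v ∈ C, u ≠ v → ({a, u, v} : Finset (Fin n)) ∈ H

/-- The edges of `H` which do not have exactly two vertices in `A` and one vertex in `C`. -/
def others {n : ℕ} (H : Finset (Finset (Fin n))) (A C : Finset (Fin n)) :
    Finset (Finset (Fin n)) :=
  H.filter fun e => ¬ ((e ∩ A).card = 2 ∧ (e ∩ C).card = 1)

open Pool.Agent.H449R2.Fl Pool.Agent.T9h12.M5 in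
theorem card_inter {n : ℕ} (A : Finset (Fin n)) {x y z : Fin n} (hxy : x ≠ y) (hxz : x ≠ z)
    (hyz : y ≠ z) : (({x, y, z} : Finset (Fin n)) ∩ A).card = iA A x + iA A y + iA A z := by
  have h1 : ({x, y, z} : Finset (Fin n)) ∩ A = ({x, y, z} : Finset (Fin n)).filter (· ∈ A) := by
    rw [filter_mem_eq_inter]
  rw [h1, card_filter, sum_insert (by simp [hxy, hxz]), sum_insert (by simp [hyz]), sum_singleton,
    ← add_assoc]
  rfl

open Pool.Agent.H449R2.Fl Pool.Agent.T9h12.M5 in
theorem main (n : ℕ) (H : Finset (Finset (Fin n))) (h3 : ∀ e ∈ H, e.card = 3) (hK : K43Free H)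
    (A C : Finset (Fin n)) (hd : Disjoint A C) (hA : 347 * n ≤ 1000 * A.card)
    (hC : 347 * n ≤ 1000 * C.card) (hn : 0 < n) :
    600000 * (H.filter fun e => ¬ ((e ∩ A).card = 2 ∧ (e ∩ C).card = 1)).card ≤
      55545 * n ^ 3 := by
  have hf := ind_pat h3
  have hsg := K4free_sg h3 hK
  set H' := H.filter fun e => ¬ ((e ∩ A).card = 2 ∧ (e ∩ C).card = 1) with hH'
  have h3' : ∀ e ∈ H', e.card = 3 := fun e he => h3 e (mem_filter.1 he).1
  have hA' : 347 * Fintype.card (Fin n) ≤ 1000 * A.card := by rwa [Fintype.card_fin]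
  have hC' : 347 * Fintype.card (Fin n) ≤ 1000 * C.card := by rwa [Fintype.card_fin]
  have hA0 : 0 < A.card := by omega
  have hC0 : 0 < C.card := by omega
  set t := 1000 * A.card * C.card with ht
  have ht0 : 0 < t := by positivity
  set c := bc A C (347 * Fintype.card (Fin n) * C.card) (347 * Fintype.card (Fin n) * A.card) t
    with hcdef
  have hb := H3.bound (be_sy (mo_sy hf A C) t) (c := c) (bc_le A C _ _ t)
    (mo_bd hf hd (by decide +kernel) (by decide +kernel) _ _ t)
    (fun x y z w => mo_k4 hf hsg A C x.1 y.1 z.1 w.1)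
    (bal0 347 1000 hA') (bal2 hd 347 1000 hC')
  rw [be_sum, Fintype.card_prod, Fintype.card_fin, Fintype.card_fin] at hb
  have hle : ∀ x y z, ind H' x y z ≤ mo (ind H) A C x y z := by
    intro x y z
    unfold ind
    by_cases he : ({x, y, z} : Finset (Fin n)) ∈ H'
    · have he1 := (mem_filter.1 he).1
      have he2 := (mem_filter.1 he).2
      have hc3 := h3 _ he1
      have hxy : x ≠ y := by
        rintro rfl
        have : (insert x ({x, z} : Finset (Fin n))) = {x, z} := insert_eq_of_mem (by simp)
        rw [this] at hc3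
        have := card_le_two (a := x) (b := z)
        omega
      have hxz : x ≠ z := by
        rintro rfl
        have : (insert x ({y, x} : Finset (Fin n))) = {y, x} := insert_eq_of_mem (by simp)
        rw [this] at hc3
        have := card_le_two (a := y) (b := x)
        omega
      have hyz : y ≠ z := by
        rintro rfl
        have : (insert x ({y, y} : Finset (Fin n))) = {x, y} := by simp
        rw [this] at hc3
        have := card_le_two (a := x) (b := y)
        omega
      rw [card_inter A hxy hxz hyz, card_inter C hxy hxz hyz] at he2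
      have hp : ¬ pAA A C x y z := he2
      have e1 : mo (fun a b c => if ({a, b, c} : Finset (Fin n)) ∈ H then 1 else 0) A C x y z =
          if ({x, y, z} : Finset (Fin n)) ∈ H then 1 else 0 := if_neg hp
      rw [if_pos he, e1, if_pos he1]
    · rw [if_neg he]
      exact Nat.zero_le _
  have h1 : 6 * H'.card ≤ ∑ x, ∑ y, ∑ z, mo (ind H) A C x y z := by
    rw [← sum_ind h3']
    exact sum_le_sum fun x _ => sum_le_sum fun y _ => sum_le_sum fun z _ => hle x y z
  have hz : ((6 * H'.card : ℕ) : ℤ) ≤ ∑ x, ∑ y, ∑ z, (mo (ind H) A C x y z : ℤ) := by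
    exact_mod_cast h1
  set M : ℤ := ∑ x, ∑ y, ∑ z, (mo (ind H) A C x y z : ℤ) with hM
  have ht3 : (0 : ℤ) < (t : ℤ) ^ 3 := by positivity
  have hn3 : (0 : ℤ) ≤ (n : ℤ) ^ 3 := by positivity
  have h2 : 100000 * M ≤ 55545 * (n : ℤ) ^ 3 := by
    push_cast at hb
    rw [mul_pow] at hb
    have h4 : (t : ℤ) ^ 3 * (100000 * M) ≤ (t : ℤ) ^ 3 * (55545 * (n : ℤ) ^ 3) := by
      have h5 : (0 : ℤ) ≤ (n : ℤ) ^ 3 * (t : ℤ) ^ 3 := by positivity
      norm_num at hb
      nlinarith
    exact le_of_mul_le_mul_left h4 ht3
  have h6 : ((600000 * H'.card : ℕ) : ℤ) ≤ ((55545 * n ^ 3 : ℕ) : ℤ) := by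
    push_cast at hz ⊢
    nlinarith
  exact_mod_cast h6

theorem part1 (n : ℕ) (H : Finset (Finset (Fin n))) (h3 : ∀ e ∈ H, e.card = 3) (hK : K43Free H)
    (A C : Finset (Fin n)) (hd : Disjoint A C) (hA : 0.347 * (n : ℝ) ≤ A.card)
    (hC : 0.347 * (n : ℝ) ≤ C.card) :
    ((others H A C).card : ℝ) ≤ 0.55545 / 6 * (n : ℝ) ^ 3 ∧
      (20000 ≤ n → ((others H A C).card : ℝ) ≤ 5 / 9 * (n.choose 3 : ℝ)) := by
  have hA' : 347 * n ≤ 1000 * A.card := by
    have : (347 : ℝ) * n ≤ 1000 * A.card := by linarith
    exact_mod_cast this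
  have hC' : 347 * n ≤ 1000 * C.card := by
    have : (347 : ℝ) * n ≤ 1000 * C.card := by linarith
    exact_mod_cast this
  unfold others
  rcases Nat.eq_zero_or_pos n with h0 | h0
  · subst h0
    have hH : H = ∅ := by
      rw [eq_empty_iff_forall_notMem]
      intro s hs
      have h1 := h3 s hs
      have h2 := card_le_univ s
      rw [Fintype.card_fin] at h2
      omega
    refine ⟨by simp [hH], fun h => absurd h (by norm_num)⟩
  have h := main n H h3 hK A C hd hA' hC' h0
  have hr : (600000 : ℝ) * (H.filter fun e => ¬ ((e ∩ A).card = 2 ∧ (e ∩ C).card = 1)).card ≤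
      55545 * (n : ℝ) ^ 3 := by exact_mod_cast h
  refine ⟨by linarith, fun hn => ?_⟩
  exact Pool.Agent.T9h12.C6.to_choose n 20000 _ 0.55545 (by norm_num) hn (by norm_num)
    (by norm_num) (by linarith)

/-- **Two sets.** Let `H` be a `K_4^3`-free 3-graph on `n` vertices, and let `A` and `C` be disjoint
sets of vertices. (1) If `|A|, |C| ≥ 0.347 n`, then the number of edges of `H` which do not have
exactly two vertices in `A` and one vertex in `C` is at most `(0.55545/6) n³`, and for `n ≥ 20000`
at most `(5/9) C(n,3)`. (2) If `|A|, |C| ≥ 0.341 n` and all triples with one vertex in `A` and two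
vertices in `C` are edges of `H`, then `H` has at most `(0.55546/6) n³ + n²/2` edges, and for
`n ≥ 50000` at most `(5/9) C(n,3)`. -/
theorem result (n : ℕ) (H : Finset (Finset (Fin n))) (h3 : ∀ e ∈ H, e.card = 3) (hK : K43Free H)
    (A C : Finset (Fin n)) :
    (Disjoint A C → 0.347 * (n : ℝ) ≤ A.card → 0.347 * (n : ℝ) ≤ C.card →
      ((others H A C).card : ℝ) ≤ 0.55545 / 6 * (n : ℝ) ^ 3 ∧
      (20000 ≤ n → ((others H A C).card : ℝ) ≤ 5 / 9 * (n.choose 3 : ℝ))) ∧
    (CompletePair H A C → 0.341 * (n : ℝ) ≤ A.card → 0.341 * (n : ℝ) ≤ C.card →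
      (H.card : ℝ) ≤ 0.55546 / 6 * (n : ℝ) ^ 3 + (n : ℝ) ^ 2 / 2 ∧
      (50000 ≤ n → (H.card : ℝ) ≤ 5 / 9 * (n.choose 3 : ℝ))) := by
  refine ⟨fun hd hA hC => part1 n H h3 hK A C hd hA hC, fun hp hA hC => ?_⟩
  have hA' : 341 * n ≤ 1000 * A.card := by
    have : (341 : ℝ) * n ≤ 1000 * A.card := by linarith
    exact_mod_cast this
  have hC' : 341 * n ≤ 1000 * C.card := by
    have : (341 : ℝ) * n ≤ 1000 * C.card := by linarith
    exact_mod_cast this
  exact Pool.Agent.T9h12.Moved.CompletePairs.result n H h3 hK A C hp hA' hC'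

end Pool.Agent.Results.MP_f1799f_co.TwoSets
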